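import Mathlib
import Pool.Agent.H616R2.SketchStrong

/-!
# Sketches with arbitrary randomness, and padding
-/

set_option autoImplicit false

namespace Pool.Agent.Y668.XS

open Finset Pool.Agent.Helper12.SketchSep Pool.Agent.H616R2.Sketch

/-- `f` has a sketch with `k` parities, where parities and decoder are chosen at random from an
arbitrary finite probability space -/
def GS {n : ℕ} (f : (Fin n → ZMod 2) → Bool) (k : ℕ) : Prop :=
  ∃ (Ω : Type) (_ : Fintype Ω) (p : Ω → ℝ) (S : Ω → Fin k → Finset (Fin n))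
    (g : Ω → (Fin k → ZMod 2) → Bool),
    (∀ ω, 0 ≤ p ω) ∧ ∑ ω, p ω = 1 ∧
    ∀ x, (2 : ℝ) / 3 ≤ ∑ ω, if g ω (fun j => chi (S ω j) x) = f x then p ω else 0

variable {N s : ℕ}

open Classical in
theorem gs_bound {k a b : ℕ} (hs : s + 1 = 2 ^ a * 3 ^ b)
    (h : GS (gg N s (3 ^ b - 1)) k) :
    N.choose s ≤ 3 * (k * N.choose (2 ^ a - 1)) := by
  classical
  set d := 3 ^ b - 1 with hd
  have hd0 : ((s.choose d : ℕ) : ZMod 3) ≠ 0 := by
    rw [hd, cast_ne_zero 3 b s, hs]
    exact Dvd.intro_left _ rfl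
  obtain ⟨Ω, _, p, T, g, hp0, hp1, hsk⟩ := h
  -- per w
  have hw : ∀ w : Ts N s, (1 : ℝ) / 3 ≤ ∑ ω, if Gd d (T ω) w then p ω else 0 := by
    intro w
    have hcard : (0 : ℝ) < Nat.card (Ys d w) := by
      have : 0 < Nat.card (Ys d w) := Nat.card_pos
      exact_mod_cast this
    have h1 : (4 : ℝ) / 3 * Nat.card (Ys d w) ≤ ∑ ω, p ω * cn d (T ω) (g ω) w := by
      have h2 : ∀ y : Ys d w, (4 : ℝ) / 3 ≤ ∑ ω, p ω *
          (((if g ω (Lm (T ω) (ins (ndi w) y.1)) = true then 1 else 0) +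
          (if g ω (Lm (T ω) (ins (ndi w) (y.1 + ssg w))) = false then 1 else 0) : ℕ) : ℝ) := by
        intro y
        have ha := hsk (ins (ndi w) y.1)
        have hb := hsk (ins (ndi w) (y.1 + ssg w))
        rw [gg_yes d w y.1 y.2] at ha
        rw [gg_no d w hd0 y.1 y.2] at hb
        have hc : ∑ ω, p ω *
          (((if g ω (Lm (T ω) (ins (ndi w) y.1)) = true then 1 else 0) +
          (if g ω (Lm (T ω) (ins (ndi w) (y.1 + ssg w))) = false then 1 else 0) : ℕ) : ℝ) =
          (∑ ω, if g ω (fun j => chi (T ω j) (ins (ndi w) y.1)) = true then p ω else 0) +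
          (∑ ω, if g ω (fun j => chi (T ω j) (ins (ndi w) (y.1 + ssg w))) = false
            then p ω else 0) := by
          rw [← Finset.sum_add_distrib]
          refine Finset.sum_congr rfl fun ω _ => ?_
          have q1 : (Lm (T ω) (ins (ndi w) y.1)) = fun j => chi (T ω j) (ins (ndi w) y.1) := rfl
          have q2 : (Lm (T ω) (ins (ndi w) (y.1 + ssg w))) =
            fun j => chi (T ω j) (ins (ndi w) (y.1 + ssg w)) := rfl
          rw [q1, q2]
          split_ifs <;> push_cast <;> ring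
        rw [hc]
        linarith
      have h3 : ∑ ω, p ω * (cn d (T ω) (g ω) w : ℝ) = ∑ y : Ys d w, ∑ ω, p ω *
          (((if g ω (Lm (T ω) (ins (ndi w) y.1)) = true then 1 else 0) +
          (if g ω (Lm (T ω) (ins (ndi w) (y.1 + ssg w))) = false then 1 else 0) : ℕ) : ℝ) := by
        rw [Finset.sum_comm]
        refine Finset.sum_congr rfl fun ω _ => ?_
        rw [← Finset.mul_sum]
        congr 1
        unfold cn
        rw [Nat.cast_sum]
      rw [h3, Nat.card_eq_fintype_card, ← Finset.card_univ, mul_comm, ← nsmul_eq_mul,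
        ← Finset.sum_const]
      exact Finset.sum_le_sum fun y _ => h2 y
    have h4 : ∑ ω, p ω * (cn d (T ω) (g ω) w : ℝ) ≤
        ∑ ω, (p ω + if Gd d (T ω) w then p ω else 0) * Nat.card (Ys d w) := by
      refine Finset.sum_le_sum fun ω _ => ?_
      by_cases hG : Gd d (T ω) w
      · rw [if_pos hG]
        have : (cn d (T ω) (g ω) w : ℝ) ≤ 2 * Nat.card (Ys d w) := by
          exact_mod_cast cn_le d (T ω) (g ω) w
        nlinarith [hp0 ω]
      · rw [if_neg hG, cn_bad d (T ω) (g ω) w hG, add_zero]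
    rw [← Finset.sum_mul, Finset.sum_add_distrib, hp1] at h4
    have h5 := h1.trans h4
    have h6 := le_of_mul_le_mul_right h5 hcard
    linarith
  -- sum over w
  have h7 : (Fintype.card (Ts N s) : ℝ) * (1 / 3) ≤
      ∑ w : Ts N s, ∑ ω, if Gd d (T ω) w then p ω else 0 := by
    rw [← Finset.card_univ, ← nsmul_eq_mul, ← Finset.sum_const]
    exact Finset.sum_le_sum fun w _ => hw w
  have h8 : ∑ w : Ts N s, ∑ ω, (if Gd d (T ω) w then p ω else 0) ≤
      ((k * N.choose (2 ^ a - 1) : ℕ) : ℝ) := by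
    rw [Finset.sum_comm]
    calc ∑ ω, ∑ w : Ts N s, (if Gd d (T ω) w then p ω else 0)
        = ∑ ω, p ω * ((Finset.univ.filter fun w : Ts N s => Gd d (T ω) w).card : ℝ) := by
          refine Finset.sum_congr rfl fun ω _ => ?_
          rw [sum_ite_const, mul_comm]
      _ ≤ ∑ ω, p ω * ((k * N.choose (2 ^ a - 1) : ℕ) : ℝ) := by
          refine Finset.sum_le_sum fun ω _ => mul_le_mul_of_nonneg_left ?_ (hp0 ω)
          exact_mod_cast card_Gd_le hs (T ω)
      _ = _ := by rw [← Finset.sum_mul, hp1, one_mul]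
  have h9 := h7.trans h8
  rw [card_Ts] at h9
  have h10 : (N.choose s : ℝ) ≤ ((3 * (k * N.choose (2 ^ a - 1)) : ℕ) : ℝ) := by
    push_cast at h9 ⊢
    linarith
  exact_mod_cast h10

/-- the function of `n` bits which depends on the coordinates `e i` only -/
def pad {m n : ℕ} (e : Fin m → Fin n) (f : (Fin m → ZMod 2) → Bool) (x : Fin n → ZMod 2) : Bool :=
  f (fun i => x (e i))

theorem one_pad {m n : ℕ} (e : Fin m → Fin n) (f : (Fin m → ZMod 2) → Bool) {c : ℕ}
    (h : HasOneWay (xorFn f) c) : HasOneWay (xorFn (pad e f)) c := by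
  obtain ⟨Ω, i, p, A, B, h0, h1, h2⟩ := h
  exact ⟨Ω, i, p, fun ω x => A ω (fun i => x (e i)), fun ω m y => B ω m (fun i => y (e i)), h0, h1,
    fun x y => h2 (fun i => x (e i)) (fun i => y (e i))⟩

theorem sk_pad {m n : ℕ} (e : Fin m → Fin n) (he : Function.Injective e)
    (f : (Fin m → ZMod 2) → Bool) {k : ℕ} (h : HasSketch (pad e f) k) : GS f k := by
  classical
  obtain ⟨p, g, hp0, hp1, hsk⟩ := h
  refine ⟨Fin k → Finset (Fin n), inferInstance, p,
    fun S j => Finset.univ.filter fun i => e i ∈ S j, g, hp0, hp1, fun x => ?_⟩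
  have hx := hsk (Function.extend e x 0)
  have e1 : pad e f (Function.extend e x 0) = f x := by
    unfold pad
    congr 1
    funext i
    exact he.extend_apply x 0 i
  have e2 : ∀ (S : Finset (Fin n)), chi S (Function.extend e x 0) =
      chi (Finset.univ.filter fun i => e i ∈ S) x := by
    intro S
    unfold chi
    have h1 : ∑ i ∈ Finset.univ.filter (fun i => e i ∈ S), x i =
        ∑ i ∈ (Finset.univ.filter (fun i => e i ∈ S)).map ⟨e, he⟩, Function.extend e x 0 i := by
      rw [Finset.sum_map]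
      refine Finset.sum_congr rfl fun i _ => ?_
      exact (he.extend_apply x 0 i).symm
    rw [h1]
    symm
    refine Finset.sum_subset ?_ ?_
    · intro i hi
      rw [Finset.mem_map] at hi
      obtain ⟨j, hj, rfl⟩ := hi
      exact (Finset.mem_filter.1 hj).2
    · intro i hi hni
      refine Function.extend_apply' _ _ _ ?_
      rintro ⟨j, rfl⟩
      exact hni (Finset.mem_map.2 ⟨j, Finset.mem_filter.2 ⟨Finset.mem_univ _, hi⟩, rfl⟩)
  rw [e1] at hx
  simp only [e2] at hx
  exact hx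

/-- the separation for all numbers of variables -/
theorem fin_sep (N s a b n : ℕ) (hs : s + 1 = 2 ^ a * 3 ^ b) (hn : N + N.choose s ≤ n) :
    ∃ f : (Fin n → ZMod 2) → Bool, Rone (xorFn f) ≤ N + 4 * N.choose (3 ^ b - 1) ∧
      N.choose s ≤ 3 * (Rlin f * N.choose (2 ^ a - 1)) := by
  refine ⟨pad (Fin.castLE hn) (gg N s (3 ^ b - 1)), ?_, ?_⟩
  · exact Nat.sInf_le (one_pad _ _ (oneWay_gg N s (3 ^ b - 1)))
  · have h : HasSketch (pad (Fin.castLE hn) (gg N s (3 ^ b - 1)))
        (Rlin (pad (Fin.castLE hn) (gg N s (3 ^ b - 1)))) :=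
      Nat.sInf_mem (s := {k | HasSketch (pad (Fin.castLE hn) (gg N s (3 ^ b - 1))) k})
        ⟨n, hasSketch_self _⟩
    exact gs_bound hs (sk_pad _ (Fin.castLE_injective hn) _ h)

end Pool.Agent.Y668.XS
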