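import Mathlib

/-!
# Binomial coefficients: elementary estimates
-/

set_option autoImplicit false

namespace Pool.Agent.Y668.XS

open Filter

theorem choose_small (N c m t : ℕ) (hN : N ≤ c * m) (ht : t ≤ m) (hc : 1 ≤ c) :
    (N.choose t : ℝ) ≤ (c : ℝ) ^ m * Real.exp m := by
  have h1 : (N.choose t : ℝ) ≤ (N : ℝ) ^ t / (t.factorial : ℝ) := Nat.choose_le_pow_div t N
  have hN' : (N : ℝ) ≤ (c : ℝ) * m := by exact_mod_cast hN
  have hc' : (1 : ℝ) ≤ c := by exact_mod_cast hc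
  calc (N.choose t : ℝ) ≤ (N : ℝ) ^ t / (t.factorial : ℝ) := h1
    _ ≤ ((c : ℝ) * m) ^ t / (t.factorial : ℝ) := by gcongr
    _ = (c : ℝ) ^ t * ((m : ℝ) ^ t / (t.factorial : ℝ)) := by rw [mul_pow]; ring
    _ ≤ (c : ℝ) ^ m * Real.exp m := by
        have h2 := Real.pow_div_factorial_le_exp (m : ℝ) (Nat.cast_nonneg m) t
        have h3 : (c : ℝ) ^ t ≤ (c : ℝ) ^ m := pow_le_pow_right₀ hc' ht
        gcongr

theorem central_low (u : ℕ) (hu : 1 ≤ u) : 4 ^ u ≤ 4 * u * (2 * u).choose (u - 1) := by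
  have h1 := Nat.four_pow_le_two_mul_self_mul_centralBinom u hu
  have h2 : (2 * u).choose (u - 1 + 1) * (u - 1 + 1) = (2 * u).choose (u - 1) * (2 * u - (u - 1)) :=
    Nat.choose_succ_right_eq _ _
  have e1 : u - 1 + 1 = u := by omega
  rw [e1] at h2
  have h3 : (2 * u).choose u ≤ 2 * (2 * u).choose (u - 1) := by
    have h4 : (2 * u).choose u * u ≤ (2 * (2 * u).choose (u - 1)) * u := by
      have h5 : 2 * u - (u - 1) ≤ 2 * u := Nat.sub_le _ _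
      have h6 : (2 * u).choose (u - 1) * (2 * u - (u - 1)) ≤ (2 * u).choose (u - 1) * (2 * u) :=
        Nat.mul_le_mul_left _ h5
      calc (2 * u).choose u * u = _ := h2
        _ ≤ _ := h6
        _ = _ := by ring
    exact Nat.le_of_mul_le_mul_right h4 (by omega)
  rw [Nat.centralBinom_eq_two_mul_choose] at h1
  calc 4 ^ u ≤ 2 * u * (2 * u).choose u := h1
    _ ≤ 2 * u * (2 * (2 * u).choose (u - 1)) := Nat.mul_le_mul_left _ h3
    _ = 4 * u * (2 * u).choose (u - 1) := by ring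

theorem four_mul_le (u : ℕ) (hu : 4 ≤ u) : 4 * u ≤ 2 ^ u := by
  induction u, hu using Nat.le_induction with
  | base => norm_num
  | succ n hn ih => rw [pow_succ]; omega

theorem two_pow_le_central (u : ℕ) (hu : 4 ≤ u) : 2 ^ u ≤ (2 * u).choose (u - 1) := by
  have h1 := central_low u (by omega)
  have h2 := four_mul_le u hu
  have h3 : 2 ^ u * 2 ^ u ≤ 2 ^ u * (2 * u).choose (u - 1) := by
    calc 2 ^ u * 2 ^ u = 4 ^ u := by rw [← mul_pow]; norm_num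
      _ ≤ 4 * u * (2 * u).choose (u - 1) := h1
      _ ≤ _ := Nat.mul_le_mul_right _ h2
  exact Nat.le_of_mul_le_mul_left h3 (by positivity)

theorem pow_31 (r : ℕ) (hr : 6 ≤ r) : 2 ^ (4 * r + 5) ≤ 31 ^ r := by
  induction r, hr using Nat.le_induction with
  | base => norm_num
  | succ n hn ih =>
    calc 2 ^ (4 * (n + 1) + 5) = 16 * 2 ^ (4 * n + 5) := by ring
      _ ≤ 31 * 31 ^ n := Nat.mul_le_mul (by norm_num) ih
      _ = 31 ^ (n + 1) := by ring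

theorem choose_big (r : ℕ) (hr : 6 ≤ r) : 2 ^ (4 * r + 5) ≤ (32 * (r + 1)).choose r := by
  refine (pow_31 r hr).trans ?_
  have h1 : (32 * (r + 1) + 1 - r) ^ r ≤ r.factorial * (32 * (r + 1)).choose r := by
    rw [← Nat.descFactorial_eq_factorial_mul_choose]
    exact Nat.pow_sub_le_descFactorial _ _
  have h2 : (31 * r) ^ r ≤ (32 * (r + 1) + 1 - r) ^ r := Nat.pow_le_pow_left (by omega) _
  have h3 : r.factorial ≤ r ^ r := Nat.factorial_le_pow r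
  have h4 : 31 ^ r * r ^ r ≤ (32 * (r + 1)).choose r * r ^ r := by
    calc 31 ^ r * r ^ r = (31 * r) ^ r := (mul_pow _ _ _).symm
      _ ≤ r.factorial * (32 * (r + 1)).choose r := h2.trans h1
      _ ≤ r ^ r * (32 * (r + 1)).choose r := Nat.mul_le_mul_right _ h3
      _ = _ := mul_comm _ _
  exact Nat.le_of_mul_le_mul_right h4 (by positivity)

theorem choose_succ_le (N s : ℕ) (h : 2 * s ≤ N + 1) : (N + 1).choose s ≤ 2 * N.choose s := by
  have h1 : N.choose s * (N + 1) = (N + 1).choose s * (N + 1 - s) := Nat.choose_mul_succ_eq N s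
  rcases Nat.eq_zero_or_pos s with rfl | hs
  · simp
  have h2 : (N + 1).choose s * (N + 1 - s) ≤ (2 * N.choose s) * (N + 1 - s) := by
    rw [← h1]
    have h3 : N + 1 ≤ 2 * (N + 1 - s) := by omega
    calc N.choose s * (N + 1) ≤ N.choose s * (2 * (N + 1 - s)) := Nat.mul_le_mul_left _ h3
      _ = _ := by ring
  exact Nat.le_of_mul_le_mul_right h2 (by omega)

theorem exists_last (P : ℕ → Prop) (h0 : ¬ P 0) (h : ∃ j, P j) : ∃ j, ¬ P j ∧ P (j + 1) := by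
  by_contra hno
  push Not at hno
  obtain ⟨j, hj⟩ := h
  have : ∀ i, ¬ P i := by
    intro i
    induction i with
    | zero => exact h0
    | succ i ih => exact hno i ih
  exact this j hj

/-- `2 u + C(2 u, u - 1)` for `u = 3 ^ b 2 ^ a` -/
def FF (b a : ℕ) : ℕ := 2 * (2 ^ a * 3 ^ b) + (2 * (2 ^ a * 3 ^ b)).choose (2 ^ a * 3 ^ b - 1)

theorem lt_FF (b n : ℕ) : n < FF b n := by
  have h1 : n < 2 ^ n := Nat.lt_two_pow_self
  have h2 : 1 ≤ 3 ^ b := Nat.one_le_pow _ _ (by norm_num)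
  unfold FF
  have h3 : 2 ^ n * 1 ≤ 2 ^ n * 3 ^ b := Nat.mul_le_mul_left _ h2
  omega

/-- choice of `a` -/
theorem exists_a (b a0 : ℕ) : ∃ n1 : ℕ, ∀ n : ℕ, n1 ≤ n → ∃ a : ℕ, a0 ≤ a ∧ FF b a ≤ n ∧
    n < FF b (a + 1) := by
  refine ⟨FF b a0, fun n hn => ?_⟩
  obtain ⟨j, h1, h2⟩ := exists_last (fun j => n < FF b (a0 + j)) (by simpa using hn)
    ⟨n, lt_of_lt_of_le (lt_FF b (a0 + n)) (le_refl _) |> fun h => by
      have := lt_FF b (a0 + n)
      show n < FF b (a0 + n)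
      omega⟩
  refine ⟨a0 + j, by omega, by simpa using h1, ?_⟩
  exact h2

theorem FF_succ_le (b a : ℕ) : FF b (a + 1) ≤ 2 ^ (4 * (2 ^ a * 3 ^ b) + 1) := by
  unfold FF
  have e : 2 * (2 ^ (a + 1) * 3 ^ b) = 4 * (2 ^ a * 3 ^ b) := by ring
  rw [e]
  have h1 : (4 * (2 ^ a * 3 ^ b)).choose (2 ^ (a + 1) * 3 ^ b - 1) ≤ 2 ^ (4 * (2 ^ a * 3 ^ b)) :=
    Nat.choose_le_two_pow _ _
  have h2 : 4 * (2 ^ a * 3 ^ b) < 2 ^ (4 * (2 ^ a * 3 ^ b)) := Nat.lt_two_pow_self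
  have h3 : 2 ^ (4 * (2 ^ a * 3 ^ b) + 1) = 2 ^ (4 * (2 ^ a * 3 ^ b)) * 2 := pow_succ _ _
  rw [h3]
  generalize (4 * (2 ^ a * 3 ^ b)).choose (2 ^ (a + 1) * 3 ^ b - 1) = x at *
  generalize 2 ^ (4 * (2 ^ a * 3 ^ b)) = y at *
  generalize 4 * (2 ^ a * 3 ^ b) = z at *
  omega

theorem two_pow_le_FF (b a : ℕ) (ha : 2 ≤ a) : 2 ^ (2 ^ a * 3 ^ b) ≤ FF b a := by
  unfold FF
  have h2 : 1 ≤ 3 ^ b := Nat.one_le_pow _ _ (by norm_num)
  have h4 : 2 ^ 2 ≤ 2 ^ a := Nat.pow_le_pow_right (by norm_num) ha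
  have h3 : 2 ^ a * 1 ≤ 2 ^ a * 3 ^ b := Nat.mul_le_mul_left _ h2
  have := two_pow_le_central (2 ^ a * 3 ^ b) (by omega)
  omega

/-- choice of `a` and `N` -/
theorem struct (b : ℕ) : ∃ n1 : ℕ, ∀ n : ℕ, n1 ≤ n → ∃ a N : ℕ,
    2 * (2 ^ a * 3 ^ b) ≤ N ∧ N < 32 * (2 ^ a * 3 ^ b) ∧ N + N.choose (2 ^ a * 3 ^ b - 1) ≤ n ∧
    n < N + 1 + (N + 1).choose (2 ^ a * 3 ^ b - 1) ∧ 2 ^ (2 ^ a * 3 ^ b) ≤ n := by
  classical
  obtain ⟨n1, h⟩ := exists_a b 3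
  refine ⟨n1, fun n hn => ?_⟩
  obtain ⟨a, ha, h1, h2⟩ := h n hn
  set u := 2 ^ a * 3 ^ b with hu
  have hu7 : 8 ≤ u := by
    have h2 : 1 ≤ 3 ^ b := Nat.one_le_pow _ _ (by norm_num)
    have h4 : 2 ^ 3 ≤ 2 ^ a := Nat.pow_le_pow_right (by norm_num) ha
    have h3 : 2 ^ a * 1 ≤ 2 ^ a * 3 ^ b := Nat.mul_le_mul_left _ h2
    omega
  have hFF : FF b a = 2 * u + (2 * u).choose (u - 1) := rfl
  obtain ⟨j, h4, h3⟩ := exists_last (fun j => n < (2 * u + j) + (2 * u + j).choose (u - 1))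
    (by simp only [add_zero]; omega) ⟨n, by show n < (2 * u + n) + _; omega⟩
  obtain ⟨N, hN⟩ : ∃ N, N = 2 * u + j := ⟨_, rfl⟩
  have h5 : 2 * u + (j + 1) = N + 1 := by omega
  simp only [h5] at h3
  simp only [← hN] at h4
  push Not at h4
  refine ⟨a, N, by omega, ?_, h4, h3, (two_pow_le_FF b a (by omega)).trans h1⟩
  by_contra hlt
  push Not at hlt
  have h6 : (32 * u).choose (u - 1) ≤ N.choose (u - 1) := Nat.choose_le_choose _ hlt
  have h7 := choose_big (u - 1) (by omega)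
  rw [show u - 1 + 1 = u by omega] at h7
  have h8 := FF_succ_le b a
  rw [← hu] at h8
  have h9 : 2 ^ (4 * u + 1) = 2 ^ (4 * (u - 1) + 5) := by
    congr 1; omega
  omega

end Pool.Agent.Y668.XS
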