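import Mathlib
import Pool.Agent.Y668.XS.Lower
import Pool.Agent.Y668.XS.Num

/-!
# Exponential separation of linear sketches and one-way communication
-/

set_option autoImplicit false

namespace Pool.Agent.Y668.XS

open Filter Topology Pool.Agent.Helper12.SketchSep

theorem log_pow_le (K : ℝ) (D : ℕ) (δ : ℝ) (hδ : 0 < δ) :
    ∀ᶠ n : ℕ in atTop, K * Real.log n ^ D ≤ (n : ℝ) ^ δ := by
  have hlo := isLittleO_log_rpow_rpow_atTop (s := δ) (D : ℝ) hδ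
  have hK : (0 : ℝ) < 1 / (|K| + 1) := by positivity
  have h2 := (tendsto_natCast_atTop_atTop (R := ℝ)).eventually (hlo.bound hK)
  filter_upwards [h2] with n hn
  rw [Real.rpow_natCast, Real.norm_of_nonneg (by positivity),
    Real.norm_of_nonneg (by positivity)] at hn
  have h3 : (|K| + 1) * Real.log n ^ D ≤ (n : ℝ) ^ δ := by
    calc (|K| + 1) * Real.log n ^ D ≤ (|K| + 1) * (1 / (|K| + 1) * (n : ℝ) ^ δ) :=
          mul_le_mul_of_nonneg_left hn (by positivity)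
      _ = (n : ℝ) ^ δ := by field_simp
  have h4 : K * Real.log n ^ D ≤ (|K| + 1) * Real.log n ^ D :=
    mul_le_mul_of_nonneg_right (by linarith [le_abs_self K]) (by positivity)
  linarith

theorem log_large (K : ℝ) : ∀ᶠ n : ℕ in atTop, K ≤ Real.log n :=
  (Real.tendsto_log_atTop.comp tendsto_natCast_atTop_atTop).eventually_ge_atTop K

theorem exists_b (δ : ℝ) (hδ : 0 < δ) : ∃ b : ℕ, 96 * (3 : ℝ) ^ b ≤ ((2 : ℝ) ^ δ) ^ (3 ^ b) := by
  have hr : (1 : ℝ) < (2 : ℝ) ^ δ := Real.one_lt_rpow (by norm_num) hδ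
  have h1 := tendsto_pow_const_div_const_pow_of_one_lt 1 hr
  have h2 : Tendsto (fun b : ℕ => 3 ^ b) atTop atTop :=
    tendsto_pow_atTop_atTop_of_one_lt (by norm_num)
  have h3 := h1.comp h2
  obtain ⟨b, hb⟩ := (h3.eventually (gt_mem_nhds (show (0 : ℝ) < 1 / 96 by norm_num))).exists
  refine ⟨b, ?_⟩
  simp only [Function.comp_apply, pow_one, Nat.cast_pow, Nat.cast_ofNat] at hb
  rw [div_lt_iff₀ (by positivity)] at hb
  linarith

theorem exp_nat_le (m : ℕ) : Real.exp m ≤ 3 ^ m := by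
  have h1 : Real.exp (m : ℝ) = Real.exp 1 ^ m := by
    rw [← Real.exp_nat_mul, mul_one]
  rw [h1]
  exact pow_le_pow_left₀ (Real.exp_pos 1).le (by linarith [Real.exp_one_lt_d9]) m

theorem u_le_log {u n : ℕ} (h : 2 ^ u ≤ n) : (u : ℝ) ≤ 2 * Real.log n := by
  have h1 : ((2 : ℝ) ^ u) ≤ n := by exact_mod_cast h
  have h2 := Real.log_le_log (by positivity) h1
  rw [Real.log_pow] at h2
  have h3 := Real.log_two_gt_d9
  have hu : (0 : ℝ) ≤ u := Nat.cast_nonneg u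
  nlinarith

theorem T1 (ε : ℝ) (hε : 0 < ε) : ∃ (C : ℕ) (f : (n : ℕ) → (Fin n → ZMod 2) → Bool),
    ∀ᶠ n : ℕ in atTop, (Rone (xorFn (f n)) : ℝ) ≤ Real.log n ^ C ∧
      (n : ℝ) ^ (1 - ε) ≤ Rlin (f n) := by
  classical
  obtain ⟨b, hb⟩ := exists_b (ε / 2) (by positivity)
  set q : ℕ := 3 ^ b with hq
  have hq1 : 1 ≤ q := Nat.one_le_pow _ _ (by norm_num)
  obtain ⟨n1, hst⟩ := struct b
  suffices hh : ∀ᶠ n : ℕ in atTop, ∃ f : (Fin n → ZMod 2) → Bool,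
      (Rone (xorFn f) : ℝ) ≤ Real.log n ^ (q + 1) ∧ (n : ℝ) ^ (1 - ε) ≤ Rlin f by
    refine ⟨q + 1, fun n => if h : ∃ f : (Fin n → ZMod 2) → Bool,
      (Rone (xorFn f) : ℝ) ≤ Real.log n ^ (q + 1) ∧ (n : ℝ) ^ (1 - ε) ≤ Rlin f
      then h.choose else fun _ => false, ?_⟩
    filter_upwards [hh] with n hn
    rw [dif_pos hn]
    exact hn.choose_spec
  filter_upwards [eventually_ge_atTop n1, eventually_ge_atTop 1, log_large (5 * 64 ^ q),
    log_pow_le 256 1 1 one_pos, log_pow_le 12 0 (ε / 2) (by positivity)] with n hn hn0 hL1 hL2 hL3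
  obtain ⟨a, N, hN1, hN2, hN3, hN4, hN5⟩ := hst n hn
  set m : ℕ := 2 ^ a with hm
  have hm1 : 1 ≤ m := Nat.one_le_pow _ _ (by norm_num)
  set u : ℕ := m * q with hu
  have hu1 : 1 ≤ u := Nat.mul_pos hm1 hq1
  have hs : u - 1 + 1 = 2 ^ a * 3 ^ b := Nat.sub_add_cancel hu1
  obtain ⟨f, hf1, hf2⟩ := fin_sep N (u - 1) a b n hs hN3
  refine ⟨f, ?_, ?_⟩
  · -- upper bound
    have huL := u_le_log hN5
    have hNL : (N : ℝ) ≤ 64 * Real.log n := by
      have : (N : ℝ) ≤ 32 * u := by exact_mod_cast hN2.le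
      linarith
    have hN0 : 1 ≤ N := by omega
    have hN0' : (1 : ℝ) ≤ N := by exact_mod_cast hN0
    have h1 : (Rone (xorFn f) : ℝ) ≤ N + 4 * (N.choose (q - 1) : ℝ) := by exact_mod_cast hf1
    have h2 : (N.choose (q - 1) : ℝ) ≤ (N : ℝ) ^ (q - 1) := by
      exact_mod_cast Nat.choose_le_pow N (q - 1)
    have h3 : (N : ℝ) ^ (q - 1) ≤ (N : ℝ) ^ q := pow_le_pow_right₀ hN0' (by omega)
    have h4 : (N : ℝ) ≤ (N : ℝ) ^ q := by
      calc (N : ℝ) = (N : ℝ) ^ 1 := (pow_one _).symm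
        _ ≤ _ := pow_le_pow_right₀ hN0' hq1
    have h5 : (N : ℝ) ^ q ≤ (64 * Real.log n) ^ q := pow_le_pow_left₀ (by positivity) hNL q
    have hlog : 0 ≤ Real.log n := Real.log_natCast_nonneg _
    calc (Rone (xorFn f) : ℝ) ≤ 5 * (64 * Real.log n) ^ q := by linarith
      _ = (5 * 64 ^ q) * Real.log n ^ q := by rw [mul_pow]; ring
      _ ≤ Real.log n * Real.log n ^ q := mul_le_mul_of_nonneg_right hL1 (by positivity)
      _ = Real.log n ^ (q + 1) := by ring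
  · -- lower bound
    have hnpos : (0 : ℝ) < n := by exact_mod_cast hn0
    have huL := u_le_log hN5
    have hNL : (N : ℝ) + 1 ≤ 128 * Real.log n := by
      have : (N : ℝ) + 1 ≤ 32 * u := by exact_mod_cast hN2
      have hlog : 0 ≤ Real.log n := Real.log_natCast_nonneg _
      linarith
    have h1 : (n : ℝ) / 4 ≤ N.choose (u - 1) := by
      have h2 : (N + 1).choose (u - 1) ≤ 2 * N.choose (u - 1) := choose_succ_le N (u - 1) (by omega)
      have h3 : n ≤ N + 1 + 2 * N.choose (u - 1) := by omega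
      have h4 : (n : ℝ) ≤ N + 1 + 2 * N.choose (u - 1) := by exact_mod_cast h3
      rw [pow_one, Real.rpow_one] at hL2
      linarith
    have h2 : (N.choose (u - 1) : ℝ) ≤ 3 * (Rlin f * (N.choose (m - 1) : ℝ)) := by
      exact_mod_cast hf2
    have h3 : (N.choose (m - 1) : ℝ) ≤ (n : ℝ) ^ (ε / 2) := by
      have h4 : (N.choose (m - 1) : ℝ) ≤ ((32 * q : ℕ) : ℝ) ^ m * Real.exp m := by
        refine choose_small N (32 * q) m (m - 1) ?_ (by omega) (by omega)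
        calc N ≤ 32 * u := hN2.le
          _ = 32 * q * m := by rw [hu]; ring
      have h5 := exp_nat_le m
      calc (N.choose (m - 1) : ℝ) ≤ ((32 * q : ℕ) : ℝ) ^ m * Real.exp m := h4
        _ ≤ ((32 * q : ℕ) : ℝ) ^ m * 3 ^ m := by gcongr
        _ = (96 * (3 : ℝ) ^ b) ^ m := by
            rw [← mul_pow, hq]; push_cast; congr 1; ring
        _ ≤ (((2 : ℝ) ^ (ε / 2)) ^ (3 ^ b)) ^ m := pow_le_pow_left₀ (by positivity) hb m
        _ = ((2 : ℝ) ^ u) ^ (ε / 2) := by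
            rw [← pow_mul, ← Real.rpow_natCast ((2 : ℝ) ^ (ε / 2)), ← Real.rpow_mul (by norm_num),
              ← Real.rpow_natCast 2 u, ← Real.rpow_mul (by norm_num)]
            congr 1
            rw [hu, hq, mul_comm m]
            ring
        _ ≤ (n : ℝ) ^ (ε / 2) := by
            refine Real.rpow_le_rpow (by positivity) ?_ (by positivity)
            exact_mod_cast hN5
    have hR : (0 : ℝ) ≤ Rlin f := Nat.cast_nonneg _
    have h4 : (n : ℝ) ≤ 12 * (Rlin f : ℝ) * (n : ℝ) ^ (ε / 2) := by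
      have : (Rlin f : ℝ) * (N.choose (m - 1) : ℝ) ≤ (Rlin f : ℝ) * (n : ℝ) ^ (ε / 2) :=
        mul_le_mul_of_nonneg_left h3 hR
      linarith
    rw [pow_zero, mul_one] at hL3
    have hp : (0 : ℝ) < (n : ℝ) ^ (ε / 2) := by positivity
    have h5 : (n : ℝ) ^ (1 - ε) * ((n : ℝ) ^ (ε / 2) * (n : ℝ) ^ (ε / 2)) = n := by
      rw [← Real.rpow_add hnpos, ← Real.rpow_add hnpos]
      conv_rhs => rw [← Real.rpow_one (n : ℝ)]
      congr 1; ring
    have h6 : (n : ℝ) ^ (1 - ε) * 12 * (n : ℝ) ^ (ε / 2) ≤ 12 * (Rlin f : ℝ) * (n : ℝ) ^ (ε / 2) := by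
      refine le_trans ?_ h4
      rw [← h5]
      have : (n : ℝ) ^ (1 - ε) * (12 * (n : ℝ) ^ (ε / 2)) ≤
          (n : ℝ) ^ (1 - ε) * ((n : ℝ) ^ (ε / 2) * (n : ℝ) ^ (ε / 2)) := by gcongr
      calc _ = (n : ℝ) ^ (1 - ε) * (12 * (n : ℝ) ^ (ε / 2)) := by
            rw [h5]; ring
        _ ≤ _ := by rw [h5] at this ⊢; exact this
    have h7 := le_of_mul_le_mul_right h6 hp
    linarith

theorem big_m : ∃ m0 : ℕ, ∀ m : ℕ, m0 ≤ m → 72 * (m : ℝ) ≤ (64 / 57 : ℝ) ^ m := by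
  have h1 := tendsto_pow_const_div_const_pow_of_one_lt 1 (show (1 : ℝ) < 64 / 57 by norm_num)
  obtain ⟨m0, h⟩ := eventually_atTop.1
    (h1.eventually (gt_mem_nhds (show (0 : ℝ) < 1 / 72 by norm_num)))
  refine ⟨m0, fun m hm => ?_⟩
  have h2 := h m hm
  rw [pow_one, div_lt_iff₀ (by positivity)] at h2
  linarith

theorem two_rpow : (2 : ℝ) ^ (9 / 5 : ℝ) * 6 * Real.exp 1 ≤ 57 := by
  have h1 : (2 : ℝ) ^ (9 / 5 : ℝ) ≤ 3.4823 := by
    have h2 : ((2 : ℝ) ^ (9 / 5 : ℝ)) ^ 5 ≤ (3.4823 : ℝ) ^ 5 := by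
      rw [← Real.rpow_natCast, ← Real.rpow_mul (by norm_num)]
      norm_num
    exact le_of_pow_le_pow_left₀ (by norm_num) (by norm_num) h2
  have h3 := Real.exp_one_lt_d9
  have h4 := Real.exp_pos 1
  nlinarith

theorem T2 : ∃ f : (n : ℕ) → (Fin n → ZMod 2) → Bool,
    ∀ᶠ n : ℕ in atTop, (Rone (xorFn (f n)) : ℝ) ≤ 72 * Real.log n ^ 2 ∧
      (n : ℝ) ^ (3 / 20 : ℝ) ≤ Rlin (f n) := by
  classical
  obtain ⟨m0, hm0⟩ := big_m
  obtain ⟨n1, hst⟩ := exists_a 1 (m0 + 2)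
  suffices hh : ∀ᶠ n : ℕ in atTop, ∃ f : (Fin n → ZMod 2) → Bool,
      (Rone (xorFn f) : ℝ) ≤ 72 * Real.log n ^ 2 ∧ (n : ℝ) ^ (3 / 20 : ℝ) ≤ Rlin f by
    refine ⟨fun n => if h : ∃ f : (Fin n → ZMod 2) → Bool,
      (Rone (xorFn f) : ℝ) ≤ 72 * Real.log n ^ 2 ∧ (n : ℝ) ^ (3 / 20 : ℝ) ≤ Rlin f
      then h.choose else fun _ => false, ?_⟩
    filter_upwards [hh] with n hn
    rw [dif_pos hn]
    exact hn.choose_spec
  filter_upwards [eventually_ge_atTop n1, eventually_ge_atTop 1] with n hn hn0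
  obtain ⟨a, ha, hF1, hF2⟩ := hst n hn
  have hF3 := FF_succ_le 1 a
  have hF4 := two_pow_le_FF 1 a (by omega)
  set m : ℕ := 2 ^ a with hm
  have hm1 : 1 ≤ m := Nat.one_le_pow _ _ (by norm_num)
  have hmm : m0 ≤ m := by
    have : a < 2 ^ a := Nat.lt_two_pow_self
    omega
  obtain ⟨u, hu⟩ : ∃ u, u = m * 3 ^ 1 := ⟨_, rfl⟩
  have hu3 : u = 3 * m := by rw [hu]; ring
  rw [← hu] at hF3 hF4
  have hFF : FF 1 a = 2 * u + (2 * u).choose (u - 1) := by rw [hu, hm]; rfl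
  have hs : u - 1 + 1 = 2 ^ a * 3 ^ 1 := by rw [← hm, ← hu]; omega
  obtain ⟨f, hf1, hf2⟩ := fin_sep (2 * u) (u - 1) a 1 n hs (by omega)
  have huL := u_le_log (hF4.trans hF1)
  have hu0 : (1 : ℝ) ≤ u := by
    have : 1 ≤ u := by omega
    exact_mod_cast this
  refine ⟨f, ?_, ?_⟩
  · have h1 : Rone (xorFn f) ≤ 2 * u + 4 * (2 * u) ^ 2 := by
      refine hf1.trans ?_
      have : (2 * u).choose (3 ^ 1 - 1) ≤ (2 * u) ^ (3 ^ 1 - 1) := Nat.choose_le_pow _ _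
      have e : 3 ^ 1 - 1 = 2 := by norm_num
      rw [e] at this ⊢
      omega
    have h2 : (Rone (xorFn f) : ℝ) ≤ 2 * u + 4 * (2 * u) ^ 2 := by exact_mod_cast h1
    have h3 : (u : ℝ) ^ 2 ≤ (2 * Real.log n) ^ 2 := pow_le_pow_left₀ (by positivity) huL 2
    nlinarith
  · have hnpos : (0 : ℝ) < n := by exact_mod_cast hn0
    have hmR : (1 : ℝ) ≤ m := by exact_mod_cast hm1
    have h1 : (4 : ℝ) ^ u ≤ 4 * u * (2 * u).choose (u - 1) := by
      exact_mod_cast central_low u (by omega)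
    have h2 : ((2 * u).choose (u - 1) : ℝ) ≤ 3 * (Rlin f * ((2 * u).choose (m - 1) : ℝ)) := by
      exact_mod_cast hf2
    have h3 : ((2 * u).choose (m - 1) : ℝ) ≤ ((6 : ℕ) : ℝ) ^ m * Real.exp m :=
      choose_small (2 * u) 6 m (m - 1) (by omega) (by omega) (by norm_num)
    have h4 : Real.exp (m : ℝ) = Real.exp 1 ^ m := by rw [← Real.exp_nat_mul, mul_one]
    rw [h4, ← mul_pow] at h3
    have hR : (0 : ℝ) ≤ Rlin f := Nat.cast_nonneg _
    have h5 : (64 : ℝ) ^ m ≤ 36 * m * (Rlin f * (((6 : ℕ) : ℝ) * Real.exp 1) ^ m) := by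
      have e1 : (64 : ℝ) ^ m = 4 ^ u := by rw [hu3, pow_mul]; norm_num
      have e2 : (u : ℝ) = 3 * m := by rw [hu3]; push_cast; ring
      rw [e1]
      refine h1.trans ?_
      rw [e2]
      have h6 : (Rlin f : ℝ) * ((2 * u).choose (m - 1) : ℝ) ≤
          Rlin f * (((6 : ℕ) : ℝ) * Real.exp 1) ^ m := mul_le_mul_of_nonneg_left h3 hR
      have h7 : (0 : ℝ) ≤ 4 * (3 * m) := by positivity
      calc 4 * (3 * (m : ℝ)) * ((2 * u).choose (u - 1) : ℝ)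
          ≤ 4 * (3 * (m : ℝ)) * (3 * (Rlin f * (((6 : ℕ) : ℝ) * Real.exp 1) ^ m)) := by
            refine mul_le_mul_of_nonneg_left ?_ h7
            linarith
        _ = _ := by ring
    -- the number of variables
    have h6 : (n : ℝ) ^ (3 / 20 : ℝ) ≤ 2 * ((2 : ℝ) ^ (9 / 5 : ℝ)) ^ m := by
      have h7 : (n : ℝ) ≤ (2 : ℝ) ^ (4 * u + 1) := by
        have : n ≤ 2 ^ (4 * u + 1) := hF2.le.trans hF3
        exact_mod_cast this
      calc (n : ℝ) ^ (3 / 20 : ℝ) ≤ ((2 : ℝ) ^ (4 * u + 1)) ^ (3 / 20 : ℝ) :=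
            Real.rpow_le_rpow hnpos.le h7 (by norm_num)
        _ = (2 : ℝ) ^ (3 / 20 : ℝ) * ((2 : ℝ) ^ (9 / 5 : ℝ)) ^ m := by
            rw [← Real.rpow_natCast 2, ← Real.rpow_mul (by norm_num), ← Real.rpow_natCast
              ((2 : ℝ) ^ (9 / 5 : ℝ)), ← Real.rpow_mul (by norm_num), ← Real.rpow_add (by norm_num)]
            congr 1
            rw [hu3]; push_cast; ring
        _ ≤ 2 * ((2 : ℝ) ^ (9 / 5 : ℝ)) ^ m := by
            refine mul_le_mul_of_nonneg_right ?_ (by positivity)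
            calc (2 : ℝ) ^ (3 / 20 : ℝ) ≤ (2 : ℝ) ^ (1 : ℝ) :=
                  Real.rpow_le_rpow_of_exponent_le (by norm_num) (by norm_num)
              _ = 2 := Real.rpow_one 2
    have h8 : ((2 : ℝ) ^ (9 / 5 : ℝ)) ^ m * (((6 : ℕ) : ℝ) * Real.exp 1) ^ m ≤ 57 ^ m := by
      rw [← mul_pow]
      refine pow_le_pow_left₀ (by positivity) ?_ m
      have := two_rpow
      push_cast
      linarith
    have h9 : 72 * (m : ℝ) * 57 ^ m ≤ 64 ^ m := by
      have h10 := hm0 m hmm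
      have h11 : (64 / 57 : ℝ) ^ m * 57 ^ m = 64 ^ m := by
        rw [← mul_pow]; norm_num
      rw [← h11]
      exact mul_le_mul_of_nonneg_right h10 (by positivity)
    have hP : (0 : ℝ) < (((6 : ℕ) : ℝ) * Real.exp 1) ^ m := by positivity
    have h10 : (n : ℝ) ^ (3 / 20 : ℝ) * (36 * m * (((6 : ℕ) : ℝ) * Real.exp 1) ^ m) ≤
        (Rlin f : ℝ) * (36 * m * (((6 : ℕ) : ℝ) * Real.exp 1) ^ m) := by
      calc (n : ℝ) ^ (3 / 20 : ℝ) * (36 * m * (((6 : ℕ) : ℝ) * Real.exp 1) ^ m)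
          ≤ (2 * ((2 : ℝ) ^ (9 / 5 : ℝ)) ^ m) * (36 * m * (((6 : ℕ) : ℝ) * Real.exp 1) ^ m) :=
            mul_le_mul_of_nonneg_right h6 (by positivity)
        _ = 72 * m * (((2 : ℝ) ^ (9 / 5 : ℝ)) ^ m * (((6 : ℕ) : ℝ) * Real.exp 1) ^ m) := by ring
        _ ≤ 72 * m * 57 ^ m := mul_le_mul_of_nonneg_left h8 (by positivity)
        _ ≤ 64 ^ m := h9
        _ ≤ _ := h5
        _ = _ := by ring
    exact le_of_mul_le_mul_right h10 (by positivity)

theorem T3 (f : (n : ℕ) → (Fin n → ZMod 2) → Bool)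
    (hf : ∀ᶠ n : ℕ in atTop, (Rone (xorFn (f n)) : ℝ) ≤ 72 * Real.log n ^ 2 ∧
      (n : ℝ) ^ (3 / 20 : ℝ) ≤ Rlin (f n)) (d : ℕ) :
    Tendsto (fun n : ℕ => (Rlin (f n) : ℝ) / ((Rone (xorFn (f n)) + 1) * Real.log n ^ d))
      atTop atTop := by
  rw [tendsto_atTop]
  intro K
  filter_upwards [hf, log_large 1, log_pow_le (|K| * 73) (d + 2) (3 / 20) (by norm_num)] with
    n hn hL hK
  obtain ⟨h1, h2⟩ := hn
  have hpos : (0 : ℝ) < (Rone (xorFn (f n)) + 1) * Real.log n ^ d := by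
    have : (0 : ℝ) ≤ Rone (xorFn (f n)) := Nat.cast_nonneg _
    have h3 : (0 : ℝ) < Real.log n := by linarith
    positivity
  rw [le_div_iff₀ hpos]
  have h3 : (Rone (xorFn (f n)) : ℝ) + 1 ≤ 73 * Real.log n ^ 2 := by
    have : (1 : ℝ) ≤ Real.log n ^ 2 := one_le_pow₀ hL
    linarith
  have h4 : (0 : ℝ) ≤ Real.log n ^ d := by positivity
  calc K * ((Rone (xorFn (f n)) + 1) * Real.log n ^ d)
      ≤ |K| * ((Rone (xorFn (f n)) + 1) * Real.log n ^ d) :=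
        mul_le_mul_of_nonneg_right (le_abs_self K) hpos.le
    _ ≤ |K| * (73 * Real.log n ^ 2 * Real.log n ^ d) := by
        refine mul_le_mul_of_nonneg_left ?_ (abs_nonneg K)
        exact mul_le_mul_of_nonneg_right h3 h4
    _ = |K| * 73 * Real.log n ^ (d + 2) := by ring
    _ ≤ (n : ℝ) ^ (3 / 20 : ℝ) := hK
    _ ≤ _ := h2

end Pool.Agent.Y668.XS
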